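import Pool.Agent.Helper94.UP.Sheet

/-! Row A2 of sheet UP: bumps (second copy, helper68). -/

open scoped ZeroAtInfty ContDiff NNReal
open Set Filter Topology MeasureTheory

namespace Pool.Agent.Helper94.UP

open Pool.Agent.Helper94.UF Pool.Agent.Helper94.SR

theorem stA2.{u} (h1 : ST_SM) : ST_A2.{u} := by
  intro k X _ _ D hk hD hA c r hr
  obtain ⟨Bs, hBs, hS⟩ := h1
  obtain ⟨h, hh, hL, he⟩ := hA (fun x => min 1 (‖x - c‖ / r)) (1 / r) (by positivity)
    (fun x => ⟨le_min zero_le_one (by positivity), min_le_left _ _⟩) (by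
      intro x y
      have e1 : |min 1 (‖x - c‖ / r) - min 1 (‖y - c‖ / r)| ≤ |‖x - c‖ / r - ‖y - c‖ / r| := by
        have := abs_min_sub_min_le_max (1 : ℝ) (‖x - c‖ / r) 1 (‖y - c‖ / r)
        simpa using this
      refine e1.trans ?_
      rw [← sub_div, abs_div, abs_of_pos hr, one_div, inv_mul_eq_div]
      apply div_le_div_of_nonneg_right _ hr.le
      calc |‖x - c‖ - ‖y - c‖| ≤ ‖(x - c) - (y - c)‖ := abs_norm_sub_norm_le _ _
        _ = ‖x - y‖ := by rw [sub_sub_sub_cancel_right]) (1 / 32) (by norm_num)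
  refine ⟨fun x => Real.smoothTransition ((23 / 32 - h x) * (32 / 6)),
    Bs * (32 / 6) * (D * (1 / r)), by positivity, ?_, ?_, ?_, ?_, ?_⟩
  · have hs : ContDiff ℝ k Real.smoothTransition :=
      (Real.smoothTransition.contDiff (n := (⊤ : ℕ∞))).of_le hk
    exact hs.comp ((contDiff_const.sub hh).mul contDiff_const)
  · exact fun x => ⟨Real.smoothTransition.nonneg _, Real.smoothTransition.le_one _⟩
  · intro x y
    refine (hS _ _).trans ?_
    have e2 : (23 / 32 - h x) * (32 / 6) - (23 / 32 - h y) * (32 / 6) =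
        (h y - h x) * (32 / 6) := by ring
    rw [e2, abs_mul, abs_sub_comm (h y), abs_of_pos (by norm_num : (0 : ℝ) < 32 / 6)]
    have e3 := mul_le_mul_of_nonneg_left (hL x y) (show 0 ≤ Bs * (32 / 6) by positivity)
    calc Bs * (|h x - h y| * (32 / 6)) = Bs * (32 / 6) * |h x - h y| := by ring
      _ ≤ Bs * (32 / 6) * (D * (1 / r) * ‖x - y‖) := e3
      _ = _ := by ring
  · intro x hx
    apply Real.smoothTransition.one_of_one_le
    have e1 := (abs_le.1 (he x)).2
    have e2 : min 1 (‖x - c‖ / r) ≤ 1 / 2 := by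
      refine (min_le_right _ _).trans ?_
      rw [div_le_iff₀ hr]
      linarith
    linarith
  · intro x hx
    apply Real.smoothTransition.zero_of_nonpos
    have e1 := (abs_le.1 (he x)).1
    have e2 : 3 / 4 ≤ min 1 (‖x - c‖ / r) := by
      apply le_min (by norm_num)
      rw [le_div_iff₀ hr]
      exact hx
    linarith

end Pool.Agent.Helper94.UP
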